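import Pool.Agent.X119.Sq

set_option autoImplicit false

/-!
# Andrica's differences over all step sizes, at almost all primes of every short interval

`prime n` is the `n`-th prime (`prime 0 = 2`). Let `0 < θ ≤ 1` and `ε > 0`. There is `C` such that for all large
`X` and all `X ^ θ ≤ Y ≤ X` all but at most `ε Y / log X` of the primes `p = prime n` in `(X, X + Y]` satisfy for
ALL `k ≥ 1` with `C k log X ≤ Y` simultaneously:
`k log X / (C √X) ≤ √(prime (n + k)) - √(prime n) ≤ C k log X / √X`, and the same bounds hold for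
`√(prime n) - √(prime (n - k))`. In particular Andrica's inequality holds there in the stronger form
`√(prime (n + k)) - √(prime n) < 1` for all `k ≥ 1` with `C k log X < √X` and `C k log X ≤ Y`.
-/

namespace Pool.Agent.Results.MP_82fd4a_nt.AllSteps

open Finset Filter

/-- The primes in increasing order, `prime 0 = 2`. -/
noncomputable def prime (n : ℕ) : ℕ := Nat.nth Nat.Prime n

/-- For all `k ≥ 1` with `C k log X ≤ Y` the differences of the square roots of the `n`-th prime and of the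
primes `k` steps after and before it lie between `k log X / (C √X)` and `C k log X / √X`. -/
def Uniform (C : ℝ) (X Y n : ℕ) : Prop :=
  ∀ k : ℕ, 1 ≤ k → C * k * Real.log X ≤ Y →
    (k * Real.log X / (C * √(X : ℝ)) ≤ √(prime (n + k) : ℝ) - √(prime n : ℝ) ∧
      √(prime (n + k) : ℝ) - √(prime n : ℝ) ≤ C * k * Real.log X / √(X : ℝ)) ∧
    k ≤ n ∧
    (k * Real.log X / (C * √(X : ℝ)) ≤ √(prime n : ℝ) - √(prime (n - k) : ℝ) ∧
      √(prime n : ℝ) - √(prime (n - k) : ℝ) ≤ C * k * Real.log X / √(X : ℝ))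

lemma uniform_of_dist {C : ℝ} (hC : 1 ≤ C) {X Y n : ℕ} (hX : 1 ≤ X) (hYX : Y ≤ X) (hn : X < prime n)
    (hn2 : prime n ≤ X + Y) (hl : 1 ≤ Real.log X) (h : Pool.Agent.X119.Steps.Dist C X Y n) :
    Uniform (8 * C) X Y n := by
  intro k hk hkY
  have hC0 : 0 < C := by linarith
  have hL0 : 0 < Real.log X := by linarith
  have hkr : (1 : ℝ) ≤ k := by exact_mod_cast hk
  have hk0 : (0 : ℝ) < k := by linarith
  have hkY' : C * k * Real.log X ≤ Y := by
    refine le_trans ?_ hkY
    have : 0 < C * k * Real.log X := by positivity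
    linarith
  obtain ⟨⟨h1, h2⟩, h3, h4, h5⟩ := h k hk hkY'
  have hXr : (1 : ℝ) ≤ X := by exact_mod_cast hX
  have hX0 : (0 : ℝ) < X := by linarith
  have hYXr : (Y : ℝ) ≤ X := by exact_mod_cast hYX
  have hnr : (X : ℝ) < prime n := by exact_mod_cast hn
  have hnr2 : (prime n : ℝ) ≤ X + Y := by exact_mod_cast hn2
  have hsX : 0 < √(X : ℝ) := Real.sqrt_pos.2 hX0
  have hpe : ∀ m, Pool.Agent.X119.Steps.pr m = prime m := fun _ => rfl
  rw [hpe, hpe] at h1 h2 h4 h5
  have hsn : √(X : ℝ) ≤ √(prime n : ℝ) := Real.sqrt_le_sqrt hnr.le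
  have hsn2 : √(prime n : ℝ) ≤ 2 * √(X : ℝ) := by
    rw [show 2 * √(X : ℝ) = √(4 * X) by
      rw [Real.sqrt_mul (by norm_num : (0 : ℝ) ≤ 4), show (4 : ℝ) = 2 ^ 2 by norm_num,
        Real.sqrt_sq (by norm_num)]]
    exact Real.sqrt_le_sqrt (by linarith)
  have hsn0 : 0 < √(prime n : ℝ) := by linarith
  have hkl : 0 < k * Real.log X / C := by positivity
  have hd0 : 0 ≤ (prime (n + k) : ℝ) - prime n := by linarith
  have hd1 : 0 ≤ (prime n : ℝ) - prime (n - k) := by linarith
  refine ⟨?_, h3, ?_⟩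
  · obtain ⟨a1, a2⟩ := Pool.Agent.X119.Sq.sqrt_sub_bounds (a := (prime n : ℝ)) (b := (prime (n + k) : ℝ))
      (by linarith) (by linarith) (by linarith) rfl
    constructor
    · refine le_trans ?_ a1
      rw [div_le_div_iff₀ (by positivity) (by positivity)]
      rw [div_le_iff₀ hC0] at h1
      calc k * Real.log X * (4 * √(prime n : ℝ)) ≤ ((prime (n + k) - prime n : ℝ) * C) * (4 * (2 * √(X : ℝ))) := by
            gcongr
        _ = _ := by ring
    · refine a2.trans ?_
      rw [div_le_div_iff₀ hsn0 hsX]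
      calc ((prime (n + k) : ℝ) - prime n) * √(X : ℝ) ≤ (C * k * Real.log X) * √(prime n : ℝ) := by
            apply mul_le_mul h2 hsn hsX.le (by positivity)
        _ ≤ (8 * C * k * Real.log X) * √(prime n : ℝ) := by
            apply mul_le_mul_of_nonneg_right _ hsn0.le
            have : 0 < C * k * Real.log X := by positivity
            linarith
  · obtain ⟨a1, a2⟩ := Pool.Agent.X119.Sq.sqrt_sub_bounds' (a := (prime (n - k) : ℝ)) (b := (prime n : ℝ))
      (Nat.cast_nonneg _) (by linarith) (by linarith) rfl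
    constructor
    · refine le_trans ?_ a1
      rw [div_le_div_iff₀ (by positivity) (by positivity)]
      rw [div_le_iff₀ hC0] at h4
      calc k * Real.log X * (2 * √(prime n : ℝ)) ≤ (((prime n : ℝ) - prime (n - k)) * C) * (2 * (2 * √(X : ℝ))) := by
            gcongr
        _ ≤ ((prime n : ℝ) - prime (n - k)) * (8 * C * √(X : ℝ)) := by
            have : 0 ≤ ((prime n : ℝ) - prime (n - k)) * C * √(X : ℝ) := by positivity
            nlinarith
    · refine a2.trans ?_
      rw [div_le_div_iff₀ hsn0 hsX]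
      calc ((prime n : ℝ) - prime (n - k)) * √(X : ℝ) ≤ (C * k * Real.log X) * √(prime n : ℝ) := by
            apply mul_le_mul h5 hsn hsX.le (by positivity)
        _ ≤ (8 * C * k * Real.log X) * √(prime n : ℝ) := by
            apply mul_le_mul_of_nonneg_right _ hsn0.le
            have : 0 < C * k * Real.log X := by positivity
            linarith

/-- **Andrica's differences over all step sizes, at almost all primes of every short interval.** -/
theorem result (θ : ℝ) (hθ : 0 < θ) (hθ1 : θ ≤ 1) (ε : ℝ) (hε : 0 < ε) :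
    ∃ C : ℝ, 1 ≤ C ∧ ∀ᶠ X : ℕ in atTop, ∀ Y : ℕ, (X : ℝ) ^ θ ≤ Y → Y ≤ X →
      ({n : ℕ | X < prime n ∧ prime n ≤ X + Y ∧ ¬ (Uniform C X Y n ∧
        ∀ k : ℕ, 1 ≤ k → C * k * Real.log X < √(X : ℝ) → C * k * Real.log X ≤ Y →
          √(prime (n + k) : ℝ) - √(prime n : ℝ) < 1)}.ncard : ℝ) ≤ ε * Y / Real.log X := by
  obtain ⟨C, hC, h⟩ := Pool.Agent.X119.Steps.dist θ hθ hθ1 ε hε
  refine ⟨8 * C, by linarith, ?_⟩
  have hlogX : Tendsto (fun X : ℕ => Real.log (X : ℝ)) atTop atTop :=
    Real.tendsto_log_atTop.comp tendsto_natCast_atTop_atTop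
  filter_upwards [h, hlogX.eventually_ge_atTop 1, eventually_ge_atTop 1] with X hX hlog hX1 Y hXY hYX
  refine le_trans (Nat.cast_le.2 ?_) (hX Y hXY hYX)
  apply Set.ncard_le_ncard
  · rintro n ⟨n1, n2, n3⟩
    refine ⟨n1, n2, fun hD => n3 ?_⟩
    have hU := uniform_of_dist hC hX1 hYX n1 n2 hlog hD
    refine ⟨hU, fun k hk hk1 hk2 => ?_⟩
    have hX0 : (0 : ℝ) < X := by exact_mod_cast hX1
    refine lt_of_le_of_lt (hU k hk hk2).1.2 ?_
    rw [div_lt_one (Real.sqrt_pos.2 hX0)]
    exact hk1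
  · apply (Set.finite_Iic (X + Y)).subset
    rintro n ⟨n1, n2, -⟩
    have : n ≤ Pool.Agent.X119.Steps.pr n := by
      have h1 := Pool.Agent.X119.Steps.count_pr n
      have h2 := Nat.count_le (p := Nat.Prime) (n := Pool.Agent.X119.Steps.pr n)
      omega
    exact this.trans n2

end Pool.Agent.Results.MP_82fd4a_nt.AllSteps
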