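import Pool.Agent.X31.T6
import Pool.Agent.X31.T2
import Pool.Agent.TH646.TT.Pow4

/-!
# Primes in intervals of length `x ^ ε` on the translates of arbitrary sets by the integers within `N ^ δ` of
# the values of generalised polynomials

`f(t) = ∑ u_x t ^ x` is an arbitrary finite real combination of real powers of `t` with a positive largest exponent
`c` (for instance `t ^ {3/2}`, `√2 t ^ 3 + t`, `t ^ {1/10}`), and `M` is an arbitrary subset of `{1, ..., Y}` with at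
least `Y / N ^ δ` elements. The values considered are `b₀ + θ f(n)`, with arbitrary real `b₀` and `θ` for which these
values are of size `N` (for instance `θ = N / Y ^ c`).
For every set `A` of at least `N ^ (1 - δ)` integers in `[1, N]`: for all but a proportion `N ^ (-δ)` of the `n` in `M`,
ALL the integers `s` within `N ^ δ` of the value at `n` (with `√N ≤ s ≤ N`) are such that a positive proportion of the
`x` in `A + s` has many primes in `(x, x + y]` for each `N ^ ε ≤ y ≤ N`, and a prime in `(x - x ^ ε, x)`.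

The minimal real additive energy of generalised polynomials is from `Pool.Agent.X31` (`gp_EB`, in this run); the theorem on families of
small energy (`Pool.Agent.TH646.TT.pow_two_sided`) is in the starting files.
From Mathlib: `Finset.Icc 1 N`: the integers from `1` to `N`; `Finset.Ioc u v`: the integers `n` with `u < n ≤ v`.
-/

set_option autoImplicit false

namespace Pool.Agent.Results.MP_82fd4a_nt.GeneralisedPolynomialTranslates

open Finset

/-- the generalised polynomial with the exponents `x ∈ F` and the coefficients `u x` -/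
noncomputable def f (F : Finset ℝ) (u : ℝ → ℝ) (t : ℝ) : ℝ := ∑ x ∈ F, u x * t ^ x

/-- `M` is a subset of `{1, ..., Y}` with at least `Y / N ^ δ` elements, `Y ≤ N ^ D`; the number `θ` is at most
`N ^ δ` and at least `N / (Y ^ c N ^ δ)` in absolute value, and `|b₀ + θ f(n)| ≤ N` for all `n ∈ M`. -/
def Fam (D : ℕ) (F : Finset ℝ) (u : ℝ → ℝ) (c : ℝ) (N Y : ℕ) (δ θ b₀ : ℝ) (M : Finset ℕ) : Prop :=
  (Y : ℝ) ≤ (N : ℝ) ^ D ∧ |θ| ≤ (N : ℝ) ^ δ ∧ (N : ℝ) / (N : ℝ) ^ δ ≤ |θ| * (Y : ℝ) ^ c ∧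
  M ⊆ Icc 1 Y ∧ (Y : ℝ) / (N : ℝ) ^ δ ≤ M.card ∧ ∀ n ∈ M, |b₀ + θ * f F u n| ≤ N

/-- The number of the primes in `(n, n + y]`. -/
def primesIn (n y : ℕ) : ℕ := ((Ioc n (n + y)).filter Nat.Prime).card

open Classical in
/-- The translate `A + s` has good points, up to constants:

* for all integers `y` with `N ^ ε ≤ y ≤ N` the average of the number of primes in `(x, x + y]` over the `x = a + s`,
  `a ∈ A`, lies between `c y / log N` and `5 y / log N`, and at least `c |A|` elements `x` of `A + s` have at least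
  `c y / log N` primes in `(x, x + y]`;
* at least `c |A|` elements `x` of `A + s` have a prime in the interval `(x - x ^ ε, x)`. -/
noncomputable def Good (c ε : ℝ) (N : ℕ) (A : Finset ℕ) (s : ℕ) : Prop :=
  (∀ y : ℕ, (N : ℝ) ^ ε ≤ y → y ≤ N →
    c * (A.card * y) ≤ (∑ a ∈ A, (primesIn (a + s) y : ℝ)) * Real.log N ∧
    (∑ a ∈ A, (primesIn (a + s) y : ℝ)) * Real.log N ≤ 5 * (A.card * y) ∧
    c * A.card ≤ ((A.filter fun a => c * y ≤ (primesIn (a + s) y : ℝ) * Real.log N).card : ℝ)) ∧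
  c * A.card ≤ ((A.filter fun a => ∃ q : ℕ, q.Prime ∧
    ((a + s : ℕ) : ℝ) - ((a + s : ℕ) : ℝ) ^ ε < q ∧ q < a + s).card : ℝ)

lemma dat_of {D : ℕ} {F : Finset ℝ} {u : ℝ → ℝ} {c : ℝ} {N Y : ℕ} {δ θ b₀ : ℝ} {M : Finset ℕ}
    (h : Fam D F u c N Y δ θ b₀ M) :
    Pool.Agent.X31.DatGT D c ((N : ℝ) ^ δ) N Y θ b₀ (fun n => Pool.Agent.X31.gp F u n) M :=
  ⟨h.1, h.2.1, h.2.2.1, h.2.2.2.1, h.2.2.2.2.1, h.2.2.2.2.2⟩

/-- There is an absolute constant `c > 0` such that for all `0 < ε < 1` the following holds. Let `F` be a finite set of real numbers with the maximum `c > 0`, `u c ≠ 0`, `D` an integer.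
There are `δ > 0` and `N₀` such that for all `N ≥ N₀`, for all `Y`, all real `θ`, `b₀` and all sets `M` with `Fam D F u c N Y δ θ b₀ M`, and ALL sets `A` of at least `N ^ (1 - δ)` integers
in `[1, N]`: for all the `n` in `M` with at most `#M / N ^ δ` exceptions, ALL the integers `√N ≤ s ≤ N` with
`|s - (b₀ + θ * f F u n)| ≤ N ^ δ` are such that the translate `A + s` is `Good`. -/
theorem result : ∃ c₀ : ℝ, 0 < c₀ ∧ c₀ ≤ 1 ∧ ∀ ε : ℝ, 0 < ε → ε < 1 → ∀ (D : ℕ) (F : Finset ℝ) (u : ℝ → ℝ) (c : ℝ),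
    (c ∈ F ∧ (∀ x ∈ F, x ≤ c) ∧ u c ≠ 0 ∧ 0 < c) →
    ∃ δ : ℝ, 0 < δ ∧ ∃ N₀ : ℕ, ∀ N : ℕ, N₀ ≤ N → ∀ (Y : ℕ) (θ b₀ : ℝ) (M : Finset ℕ), Fam D F u c N Y δ θ b₀ M →
      ∀ A : Finset ℕ, A ⊆ Icc 1 N → (N : ℝ) ^ (1 - δ) ≤ A.card →
      ∃ E : Finset ℕ, (E.card : ℝ) ≤ M.card * (N : ℝ) ^ (-δ) ∧
        ∀ n ∈ M, n ∉ E → ∀ s : ℕ, |(s : ℝ) - (b₀ + θ * f F u n)| ≤ (N : ℝ) ^ δ → (N : ℝ) ^ (1 / 2 : ℝ) ≤ s → s ≤ N →
          Good c₀ ε N A s := by
  classical
  obtain ⟨c₀, hc0, hc1, hmain⟩ := Pool.Agent.TH646.TT.pow_two_sided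
  refine ⟨c₀, hc0, hc1, fun ε hε hε1 D F u c hF => ?_⟩
  obtain ⟨E', HS⟩ : ∃ E' : ℕ, Pool.Agent.X31.SchT E' (Pool.Agent.X31.QGp D F u c) :=
    Pool.Agent.X31.SchT_gp D F u c hF.1 hF.2.1 hF.2.2.1 hF.2.2.2
  obtain ⟨p, hp, H⟩ := HS.single (π := Finset ℕ)
  obtain ⟨κ, hκ, hev⟩ := hmain ε hε hε1 p 2
  obtain ⟨δ, hδ, hδκ, N₀, H⟩ := H p le_rfl κ hκ (fun N A => A ⊆ Icc 1 N ∧ (N : ℝ) ^ (1 - κ) ≤ A.card)
    (fun N A s => (N : ℝ) ^ (1 / 2 : ℝ) ≤ s → s ≤ N → Good c₀ ε N A s.toNat) (by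
      filter_upwards [hev] with N h A hA x s hs hE S hS1 hS2
      refine h x s (fun m hm => by exact_mod_cast hs m hm) hE A hA.1 hA.2 S hS1 ?_
      intro m hm
      have h3 := hS2 m hm
      push Not at h3
      obtain ⟨h4, h5, h6⟩ := h3
      exact ⟨h4, h5, fun h7 => h6 ⟨h7.1, h7.2⟩⟩)
  refine ⟨δ, hδ, N₀ + 1, fun N hN Y θ b₀ M hfam A hA hAN => ?_⟩
  have hNr : (1 : ℝ) ≤ N := by exact_mod_cast (by omega : 1 ≤ N)
  obtain ⟨E, hE1, hE2⟩ := H N (by omega) A ⟨hA, (Real.rpow_le_rpow_of_exponent_le hNr (by linarith)).trans hAN⟩ M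
    (fun n => (b₀ + θ * f F u n)) ⟨Y, θ, b₀, dat_of hfam, fun _ => rfl⟩
  refine ⟨E, hE1, fun n hn hnE s hs hs1 hs2 => ?_⟩
  have h1 := hE2 n hn hnE (s : ℤ) (by exact_mod_cast hs) (by exact_mod_cast hs1) (by exact_mod_cast hs2)
  rw [Int.toNat_natCast] at h1
  exact h1

end Pool.Agent.Results.MP_82fd4a_nt.GeneralisedPolynomialTranslates
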